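import Mathlib
import Pool.Agent.H.MP_61d686_an.A

namespace Pool.Agent.Results.MP_61d686_an.Minimal

open Set Filter Topology MeasureTheory Pool.Agent.H.MP_61d686_an

set_option maxHeartbeats 400000

/-- The achievement set of the terms of `a` whose index lies in `S`. -/
def Ach (a : ℕ → ℝ) (S : Set ℕ) : Set ℝ := {s | ∃ B ⊆ S, HasSum (B.indicator a) s}

/-- Cantorvals. -/
def Cantorval (E : Set ℝ) : Prop :=
  E.Nonempty ∧ IsCompact E ∧ E = closure (interior E) ∧
    ∀ u v : ℝ, u < v → (∃ y ∈ E, connectedComponentIn E y = Icc u v) →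
      AccPt u (𝓟 {z | z ∈ E ∧ connectedComponentIn E z = {z}}) ∧
      AccPt v (𝓟 {z | z ∈ E ∧ connectedComponentIn E z = {z}})

theorem ach_eq : Ach x univ = G ∅ 0 :=
  Subset.antisymm (fun _ ⟨_, _, h⟩ => G_mono (empty_subset _) 0 (toG h))
    fun _ h => let ⟨B, hB⟩ := ofG h; ⟨B, subset_univ _, hB⟩

theorem pt {c : ℝ} (h : Pt c) : c ∈ G ∅ 0 ∧ connectedComponentIn (G ∅ 0) c = {c} := by
  refine ⟨h.1, Subset.antisymm (fun w hw => ?_) (by simpa using mem_connectedComponentIn h.1)⟩
  by_contra hne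
  exact h.2 w hne ((isPreconnected_connectedComponentIn.ordConnected.uIcc_subset
    (mem_connectedComponentIn h.1) hw).trans (connectedComponentIn_subset _ _))

theorem result : ∃ a : ℕ → ℝ, (∀ n, 0 < a n) ∧ Antitone a ∧ Summable a ∧
    Cantorval (Ach a univ) ∧
    (∀ A : Set ℕ, A.Infinite → IsEmpty (Ach a Aᶜ ≃ₜ Ach a univ)) ∧
    {n | a n < ∑' k, a (k + (n + 2))}.Infinite := by
  refine ⟨x, x_pos, antitone_nat_of_succ_le fun n => ?_, summ, ?_, fun A hA => ⟨fun h => ?_⟩, ?_⟩
  · obtain ⟨k, rfl | rfl | rfl⟩ : ∃ k, n = 3 * k ∨ n = 3 * k + 1 ∨ n = 3 * k + 2 :=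
      ⟨n / 3, by omega⟩
    · rw [x0, x1]; gcongr; norm_num
    · rw [x1, x2]
    · rw [x2, show 3 * k + 2 + 1 = 3 * (k + 1) by ring, x0, pow_succ', ← div_div]
      gcongr; norm_num
  · rw [ach_eq]
    refine ⟨⟨0, zero_mem 0⟩, closed 0, reg, ?_⟩
    rintro u v huv ⟨y, hy, hc⟩
    have h1 : Icc u v ⊆ G ∅ 0 := hc ▸ connectedComponentIn_subset _ _
    have h2 : y ∈ Icc u v := hc ▸ mem_connectedComponentIn hy
    constructor <;> rw [accPt_iff_nhds] <;> intro U hU <;>
      obtain ⟨ε, hε, hb⟩ := Metric.nhds_basis_closedBall.mem_iff.1 hU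
    · obtain ⟨c, c1, c2, c3⟩ := left huv h1 (fun w hw hs => by
        have := isPreconnected_Icc.subset_connectedComponentIn (x := y) (s := Icc w v)
          ⟨by linarith [h2.1], h2.2⟩ (Icc_subset_Icc_union_Icc.trans (union_subset hs h1))
        rw [hc] at this
        linarith [(this ⟨le_rfl, by linarith⟩).1]) hε
      refine ⟨c, ⟨hb ?_, pt c1⟩, c3.ne⟩
      rw [Metric.mem_closedBall, Real.dist_eq, abs_le]; constructor <;> linarith
    · obtain ⟨c, c1, c2, c3⟩ := right huv h1 (fun w hw hs => by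
        have := isPreconnected_Icc.subset_connectedComponentIn (x := y) (s := Icc u w)
          ⟨h2.1, by linarith [h2.2]⟩ (Icc_subset_Icc_union_Icc.trans (union_subset h1 hs))
        rw [hc] at this
        linarith [(this ⟨by linarith, le_rfl⟩).2]) hε
      refine ⟨c, ⟨hb ?_, pt c1⟩, c3.ne'⟩
      rw [Metric.mem_closedBall, Real.dist_eq, abs_le]; constructor <;> linarith
  · have h1 : volume (Ach x Aᶜ) = 0 := by
      refine measure_mono_null ?_ (null (Z := (· / 3) '' A) ?_)
      · rintro s ⟨B, hB, hs⟩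
        refine G_mono ?_ 0 (toG hs)
        rintro _ ⟨i, hi, rfl⟩ ⟨b0, b1, b2⟩
        obtain e | e | e : i = 3 * (i / 3) ∨ i = 3 * (i / 3) + 1 ∨ i = 3 * (i / 3) + 2 := by omega
        exacts [hB b0 (e ▸ hi), hB b1 (e ▸ hi), hB b2 (e ▸ hi)]
      · intro hf
        refine hA ((hf.preimage' (f := (· / 3)) fun b _ => ?_).subset fun i hi => ⟨i, hi, rfl⟩)
        exact (finite_Iio (3 * b + 3)).subset fun i hi => by
          simp only [mem_preimage, mem_singleton_iff, mem_Iio] at *; omega
    have h2 : IsTotallyDisconnected (Ach x Aᶜ) := by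
      intro t ht hp a ha b hb
      by_contra hne
      have := measure_mono_null ((hp.ordConnected.uIcc_subset ha hb).trans ht) h1
      rw [Real.volume_interval, ENNReal.ofReal_eq_zero, abs_nonpos_iff, sub_eq_zero] at this
      exact hne this.symm
    haveI := totallyDisconnectedSpace_subtype_iff.2 h2
    have h3 := totallyDisconnectedSpace_subtype_iff.1 h.totallyDisconnectedSpace
    rw [ach_eq] at h3
    have := h3 _ (intv 0) isPreconnected_Icc (left_mem_Icc.2 (by norm_num))
      (right_mem_Icc.2 (by norm_num))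
    norm_num at this
  · refine infinite_of_injective_forall_mem (f := fun k => 3 * k)
      (fun a b h => by simpa using h) fun k => ?_
    have := ((summable_nat_add_iff (3 * k + 2)).2 summ).sum_le_tsum (Finset.range 4)
      fun i _ => (x_pos _).le
    refine lt_of_lt_of_le ?_ this
    simp only [Finset.sum_range_succ, Finset.range_zero, Finset.sum_empty]
    rw [zero_add, zero_add, x2, show 1 + (3 * k + 2) = 3 * (k + 1) by ring,
      show 2 + (3 * k + 2) = 3 * (k + 1) + 1 by ring,
      show 3 + (3 * k + 2) = 3 * (k + 1) + 2 by ring, x0, x0, x1, x2, pow_succ']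
    have : (0:ℝ) < (6 ^ k)⁻¹ := by positivity
    simp only [← div_div, dv]
    linarith

end Pool.Agent.Results.MP_61d686_an.Minimal
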